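import Pool.Agent.Helper63.XP.StA

/-!
# Project XP, module RNH: a random function is balanced against all polynomials
-/

set_option autoImplicit false

namespace Pool.Agent.Helper79.XP

open Finset
open Pool.Agent.Helper63.XP

/-- the constant `(1 + δ) log (1 + δ) - δ` is positive -/
theorem c0_pos (δ : ℝ) (hδ : 0 < δ) : 0 < (1 + δ) * Real.log (1 + δ) - δ := by
  have h1 : 0 < 1 + δ := by linarith
  have h2 : (1 + δ)⁻¹ ≠ 1 := by
    intro h
    have := inv_eq_one.mp h
    linarith
  have h3 := Real.log_lt_sub_one_of_pos (inv_pos.mpr h1) h2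
  rw [Real.log_inv] at h3
  have h4 : (1 + δ) * (-Real.log (1 + δ)) < (1 + δ) * ((1 + δ)⁻¹ - 1) := mul_lt_mul_of_pos_left h3 h1
  have h5 : (1 + δ) * ((1 + δ)⁻¹ - 1) = -δ := by
    field_simp
    ring
  rw [h5] at h4
  linarith

/-- the exponential moment of the number of hits, for all functions -/
theorem moment {F : Type} [Field F] [Fintype F] [DecidableEq F] (δ : ℝ) (Z : Finset F) (s : F → F) :
    ∑ H : F → F, (1 + δ) ^ (univ.filter fun x : F => H x + s x ∈ Z).card =
      ((Fintype.card F : ℝ) + δ * Z.card) ^ (Fintype.card F) := by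
  have h1 : ∀ H : F → F, (1 + δ) ^ (univ.filter fun x : F => H x + s x ∈ Z).card =
      ∏ x : F, (if H x + s x ∈ Z then (1 + δ) else 1) := by
    intro H
    rw [Finset.prod_ite]
    simp
  simp_rw [h1]
  have h2 := Finset.prod_univ_sum (t := fun _ : F => (univ : Finset F))
    (f := fun (x : F) (h : F) => (if h + s x ∈ Z then (1 + δ) else 1 : ℝ))
  rw [Fintype.piFinset_univ] at h2
  rw [← h2]
  have h3 : ∀ x : F, ∑ h : F, (if h + s x ∈ Z then (1 + δ) else 1 : ℝ) = (Fintype.card F : ℝ) + δ * Z.card := by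
    intro x
    have h4 : ∀ h : F, (if h + s x ∈ Z then (1 + δ) else 1 : ℝ) = 1 + δ * (if h + s x ∈ Z then 1 else 0) := by
      intro h
      split_ifs <;> ring
    simp_rw [h4]
    rw [Finset.sum_add_distrib, ← Finset.mul_sum, Finset.sum_boole]
    have h5 : (univ.filter fun h : F => h + s x ∈ Z).card = Z.card := by
      refine Finset.card_bij (fun h _ => h + s x) ?_ ?_ ?_
      · intro h hh
        exact (Finset.mem_filter.mp hh).2
      · intro a _ b _ hab
        exact add_right_cancel hab
      · intro b hb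
        exact ⟨b - s x, by simp [hb], by ring⟩
    rw [h5]
    simp
  rw [Finset.prod_congr rfl (fun x _ => h3 x), Finset.prod_const, Finset.card_univ]

/-- the number of the functions with too many hits -/
theorem bad_card {F : Type} [Field F] [Fintype F] [DecidableEq F] (δ : ℝ) (hδ : 0 < δ) (Z : Finset F) (s : F → F) :
    ((univ.filter fun H : F → F => (1 + δ) * Z.card <
      ((univ.filter fun x : F => H x + s x ∈ Z).card : ℝ)).card : ℝ) ≤
      (Fintype.card F : ℝ) ^ (Fintype.card F) *
        Real.exp (-((1 + δ) * Real.log (1 + δ) - δ) * Z.card) := by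
  set q := Fintype.card F with hq
  have hq0 : (0 : ℝ) < q := by
    have : 0 < Fintype.card F := Fintype.card_pos
    exact_mod_cast this
  have h1 : 0 < 1 + δ := by linarith
  set bad := univ.filter fun H : F → F => (1 + δ) * Z.card <
      ((univ.filter fun x : F => H x + s x ∈ Z).card : ℝ) with hbad
  have hm := moment δ Z s
  have h2 : ∑ H ∈ bad, Real.exp ((1 + δ) * Z.card * Real.log (1 + δ)) ≤
      ∑ H : F → F, (1 + δ) ^ (univ.filter fun x : F => H x + s x ∈ Z).card := by
    refine le_trans (Finset.sum_le_sum (g := fun H =>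
      (1 + δ) ^ (univ.filter fun x : F => H x + s x ∈ Z).card) ?_) ?_
    · intro H hH
      have hH' := (Finset.mem_filter.mp hH).2
      rw [← Real.rpow_natCast, Real.rpow_def_of_pos h1]
      apply Real.exp_le_exp.mpr
      rw [mul_comm (Real.log (1 + δ))]
      apply mul_le_mul_of_nonneg_right hH'.le
      exact Real.log_nonneg (by linarith)
    · apply Finset.sum_le_sum_of_subset_of_nonneg (Finset.subset_univ _)
      intro H _ _
      positivity
  rw [Finset.sum_const, nsmul_eq_mul, hm] at h2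
  have h3 : ((q : ℝ) + δ * Z.card) ^ q ≤ (q : ℝ) ^ q * Real.exp (δ * Z.card) := by
    have h4 : (q : ℝ) + δ * Z.card ≤ q * Real.exp (δ * Z.card / q) := by
      have h5 := Real.add_one_le_exp (δ * Z.card / q)
      have h6 : (q : ℝ) + δ * Z.card = q * (δ * Z.card / q + 1) := by
        field_simp
        ring
      rw [h6]
      exact mul_le_mul_of_nonneg_left h5 hq0.le
    calc ((q : ℝ) + δ * Z.card) ^ q ≤ (q * Real.exp (δ * Z.card / q)) ^ q := by
          apply pow_le_pow_left₀ _ h4
          positivity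
      _ = (q : ℝ) ^ q * Real.exp (δ * Z.card) := by
          rw [mul_pow, ← Real.exp_nat_mul]
          congr 2
          field_simp
  have h7 : (bad.card : ℝ) * Real.exp ((1 + δ) * Z.card * Real.log (1 + δ)) ≤ (q : ℝ) ^ q * Real.exp (δ * Z.card) :=
    le_trans h2 h3
  have h8 : Real.exp (δ * Z.card) = Real.exp (-((1 + δ) * Real.log (1 + δ) - δ) * Z.card) *
      Real.exp ((1 + δ) * Z.card * Real.log (1 + δ)) := by
    rw [← Real.exp_add]
    congr 1
    ring
  rw [h8, ← mul_assoc] at h7
  exact le_of_mul_le_mul_right h7 (Real.exp_pos _)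

theorem hRNH : StRnh := by
  intro δ hδ
  refine ⟨(1 + δ) * Real.log (1 + δ) - δ, c0_pos δ hδ, ?_⟩
  intro F _ _ _ w N1 m Z hZ _ hlt
  by_contra hcon
  push Not at hcon
  set q := Fintype.card F with hq
  have hq0 : (0 : ℝ) < q := by
    have : 0 < Fintype.card F := Fintype.card_pos
    exact_mod_cast this
  let bad : ((Fin w → F) × F) → Finset (F → F) := fun ky =>
    univ.filter fun H : F → F => (1 + δ) * Z.card <
      ((univ.filter fun x : F => H x + ((∑ a, ky.1 a * x ^ (a : ℕ)) - ky.2) ∈ Z).card : ℝ)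
  have hcov : (univ : Finset (F → F)) ⊆ (univ : Finset ((Fin w → F) × F)).biUnion bad := by
    intro H _
    obtain ⟨κ, y, hy⟩ := hcon H
    rw [Finset.mem_biUnion]
    refine ⟨(κ, y), Finset.mem_univ _, ?_⟩
    simp only [bad, Finset.mem_filter, Finset.mem_univ, true_and]
    rw [hZ]
    have he : (univ.filter fun x : F => H x + ((∑ a, κ a * x ^ (a : ℕ)) - y) ∈ Z) =
        (univ.filter fun x : F => H x + ∑ a, κ a * x ^ (a : ℕ) - y ∈ Z) := by
      apply Finset.filter_congr
      intro x _
      rw [add_sub_assoc]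
    rw [he]
    exact hy
  have h1 : ((univ : Finset (F → F)).card : ℝ) ≤ ∑ ky : (Fin w → F) × F, ((bad ky).card : ℝ) := by
    have := le_trans (Finset.card_le_card hcov) Finset.card_biUnion_le
    exact_mod_cast this
  have h2 : ∑ ky : (Fin w → F) × F, ((bad ky).card : ℝ) ≤
      ∑ _ky : (Fin w → F) × F, (q : ℝ) ^ q * Real.exp (-((1 + δ) * Real.log (1 + δ) - δ) * N1) := by
    apply Finset.sum_le_sum
    intro ky _
    have := bad_card δ hδ Z (fun x => (∑ a, ky.1 a * x ^ (a : ℕ)) - ky.2)
    rw [hZ] at this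
    simp only [bad]
    rw [hZ]
    exact this
  rw [Finset.sum_const, nsmul_eq_mul, Finset.card_univ, Fintype.card_prod, Fintype.card_fun, Fintype.card_fin, ← hq] at h2
  rw [Finset.card_univ, Fintype.card_fun, ← hq] at h1
  push_cast at h1 h2
  have h3 := le_trans h1 h2
  have h4 : (q : ℝ) ^ w * q * ((q : ℝ) ^ q * Real.exp (-((1 + δ) * Real.log (1 + δ) - δ) * N1)) =
      ((q : ℝ) ^ (w + 1) * Real.exp (-((1 + δ) * Real.log (1 + δ) - δ) * N1)) * (q : ℝ) ^ q := by
    rw [pow_succ]
    ring
  rw [h4] at h3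
  have h5 : ((q : ℝ) ^ (w + 1) * Real.exp (-((1 + δ) * Real.log (1 + δ) - δ) * N1)) * (q : ℝ) ^ q < 1 * (q : ℝ) ^ q :=
    mul_lt_mul_of_pos_right hlt (pow_pos hq0 _)
  linarith

end Pool.Agent.Helper79.XP
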